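import Pool.Agent.X173.Heis

/-!
# A group with finite double centralizers that is not σ-discrete in its semi-Zariski topology

The group is the Heisenberg group `W × W* × F₂` of the duality between `W = F₂^(ℕ)` and its dual
`W* = F₂^ℕ`.  The double centralizer of a finite set `F` is the product of the (finite) span of the
image of `F` in `W × W*` with the centre, and the semi-Zariski topology restricted to `W*` is
coarser than the topology of the Cantor space, in which every discrete subspace is countable.
-/

set_option autoImplicit false

namespace Pool.Agent.Results.MP_9d0418_gt.Heisenberg

open Pool.Agent.X173.Heis

/-- There is a group (hence a semigroup) with finite double centralizers that is not the union of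
countably many subsets discrete in the topology induced by the semi-Zariski topology. -/
theorem result : ∃ (G : Type) (_ : Group G), FiniteDoubleCentralizers G ∧
    ¬ SigmaDiscreteOn (semiZariski G) Set.univ :=
  ⟨Heis, inferInstance, fdc, not_sigmaDiscrete⟩

end Pool.Agent.Results.MP_9d0418_gt.Heisenberg
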